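import Pool.Agent.H83.UE.Targets3
import Pool.Agent.H67.UDA.NTR

/-!
# Row EXC of the board udb_modules: the totally ramified fixed points of the sixth iterate (helper67)
-/

set_option autoImplicit false

open Polynomial MeasureTheory Filter Topology Set
open scoped OnePoint ComplexConjugate ComplexOrder Laplacian ENNReal Nat

open Pool.Agent.H83.UE Pool.Agent.H67.UDA

namespace Pool.Agent.H67.UDB

/-! ### Set-theoretic dynamics -/

section Dyn

variable {S : Type} (f : S → S)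

/-- totally ramified values -/
def TR : Set S := {p | ∃ q, ∀ y, f y = p → y = q}

variable {f}

theorem surj_it (hs : Function.Surjective f) (n : ℕ) : Function.Surjective f^[n] :=
  hs.iterate n

theorem it_add (m n : ℕ) (x : S) : f^[m] (f^[n] x) = f^[m + n] x :=
  (Function.iterate_add_apply f m n x).symm

theorem it_one (n : ℕ) (x : S) : f (f^[n] x) = f^[n + 1] x :=
  (Function.iterate_succ_apply' f n x).symm

/-- if the fibre of `p` under the sixth iterate is `{q}`, the values `f^[6-i] q` are totally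
ramified -/
theorem fib_aux (hs : Function.Surjective f) {p q : S} (h : ∀ y, f^[6] y = p → y = q) (i : ℕ)
    (hi : i < 6) : ∀ y, f y = f^[i + 1] q → y = f^[i] q := by
  have hq : f^[6] q = p := by
    obtain ⟨y, hy⟩ := surj_it hs 6 p
    rw [← h y hy]
    exact hy
  intro y hy
  obtain ⟨y', hy'⟩ := surj_it hs i y
  have h1 : f^[i + 1] y' = f^[i + 1] q := by
    rw [← it_one, hy', hy]
  have h2 : f^[6] y' = p := by
    have h3 : (5 - i) + (i + 1) = 6 := by omega
    rw [← h3, ← it_add, h1, it_add, h3, hq]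
  rw [← hy', h y' h2]

theorem mem_TR (hs : Function.Surjective f) {p q : S} (h : ∀ y, f^[6] y = p → y = q) (i : ℕ)
    (hi : i < 6) : f^[i + 1] q ∈ TR f := ⟨_, fib_aux hs h i hi⟩

theorem it6 (hs : Function.Surjective f) {p q : S} (h : ∀ y, f^[6] y = p → y = q) :
    f^[6] q = p := by
  obtain ⟨y, hy⟩ := surj_it hs 6 p
  rw [← h y hy]
  exact hy

theorem dyn_a (hs : Function.Surjective f) {e : S} (h : ∀ y, f^[6] y = e → y = e) :
    e ∈ TR f := by
  have h1 := mem_TR hs h 5 (by norm_num)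
  rwa [it6 hs h] at h1

theorem dyn_b (hs : Function.Surjective f) {e : S} (h : ∀ y, f^[6] y = e → y = e) :
    ∃ E : Set S, E.Finite ∧ e ∈ E ∧ f ⁻¹' E = E := by
  have h6 := it6 hs h
  refine ⟨(fun i => f^[i] e) '' (Finset.range 6 : Set ℕ), (Finset.finite_toSet _).image _,
    ⟨0, by simp, rfl⟩, ?_⟩
  ext p
  constructor
  · rintro ⟨i, hi, hp⟩
    have hi' : i < 6 := by simpa using hi
    have hp' : f^[i] e = f p := hp
    obtain ⟨j, hj, hj2⟩ : ∃ j, j < 6 ∧ f p = f^[j + 1] e := by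
      rcases Nat.eq_zero_or_pos i with h0 | h0
      · refine ⟨5, by norm_num, ?_⟩
        rw [← hp', h0, Function.iterate_zero, id]
        exact h6.symm
      · refine ⟨i - 1, by omega, ?_⟩
        rw [← hp', Nat.sub_add_cancel h0]
    exact ⟨j, by simpa using hj, (fib_aux hs h j hj p hj2).symm⟩
  · rintro ⟨i, hi, rfl⟩
    have hi' : i < 6 := by simpa using hi
    rcases Nat.lt_or_ge (i + 1) 6 with h1 | h1
    · refine ⟨i + 1, by simpa using h1, ?_⟩
      exact (it_one i e).symm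
    · have h2 : i = 5 := by omega
      refine ⟨0, by simp, ?_⟩
      subst h2
      exact h6.symm.trans (it_one 5 e).symm

theorem dyn_c (hs : Function.Surjective f)
    (h3 : ∀ a ∈ TR f, ∀ b ∈ TR f, ∀ c ∈ TR f, a = b ∨ a = c ∨ b = c) {p q : S}
    (h : ∀ y, f^[6] y = p → y = q) : ∀ y, f^[6] y = p → y = p := by
  have h6 := it6 hs h
  have hpq : p = q := by
    apply h
    have hfix : f^[6] q = f^[5] q → f^[6] p = p := by
      intro h1
      have h2 : f p = p := by
        have h4 : f (f^[5] q) = f^[6] q := it_one 5 q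
        rw [← h1, h6] at h4
        exact h4
      exact Function.iterate_fixed h2 6
    rcases h3 _ (mem_TR hs h 5 (by norm_num)) _ (mem_TR hs h 4 (by norm_num)) _
      (mem_TR hs h 3 (by norm_num)) with h1 | h1 | h1
    · exact hfix h1
    · have h2 : f^[2] p = p := by
        have h4 : f^[2] (f^[4] q) = f^[6] q := it_add 2 4 q
        have h5 : f^[4] q = p := by
          rw [← h6]
          exact h1.symm
        rw [h5, h6] at h4
        exact h4
      have h5 : f^[6] p = f^[2] (f^[2] (f^[2] p)) := rfl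
      rw [h5, h2, h2, h2]
    · apply hfix
      have h4 : f (f^[5] q) = f^[6] q := it_one 5 q
      have h5 : f (f^[4] q) = f^[5] q := it_one 4 q
      have h7 : f^[5] q = f^[4] q := h1
      rw [← h4]
      conv_lhs => rw [h7]
      exact h5
  intro y hy
  rw [h y hy, hpq]

theorem finite_of_three (T : Set S) (h3 : ∀ a ∈ T, ∀ b ∈ T, ∀ c ∈ T, a = b ∨ a = c ∨ b = c) :
    T.Finite := by
  classical
  by_contra hinf
  obtain ⟨t, ht, hc⟩ := (show T.Infinite from hinf).exists_subset_card_eq 3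
  obtain ⟨a, b, c, hab, hac, hbc, rfl⟩ := Finset.card_eq_three.1 hc
  rcases h3 a (ht (by simp)) b (ht (by simp)) c (ht (by simp)) with h | h | h
  · exact hab h
  · exact hac h
  · exact hbc h

end Dyn

/-! ### The sphere -/

theorem vec_ne (e : OnePoint ℂ) : vec e ≠ 0 := by
  induction e using OnePoint.rec with
  | infty => exact fun h => one_ne_zero (congrArg Prod.fst h)
  | coe y => exact fun h => one_ne_zero (congrArg Prod.snd h)

theorem pt_vec (e : OnePoint ℂ) : pt (vec e) = e := by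
  induction e using OnePoint.rec with
  | infty =>
    change pt ((1 : ℂ), (0 : ℂ)) = _
    unfold pt
    rw [if_pos rfl]
  | coe y =>
    change pt (y, (1 : ℂ)) = _
    unfold pt
    rw [if_neg one_ne_zero]
    simp

theorem toFun_surj {d : ℕ} (hd : 1 ≤ d) (hB : T_BF) (g : RatMap d) :
    Function.Surjective g.toFun := by
  intro p
  obtain ⟨y, hy, rfl⟩ := pt_surj p
  obtain ⟨w, hw, h⟩ := F_surj hd hB g y hy
  refine ⟨pt w, ?_⟩
  rw [toFun_pt hd g w hw, pt_eq (F_ne hd g w hw) hy]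
  exact h

theorem three {d : ℕ} (hd : 2 ≤ d) (hB : T_BF) (g : RatMap d) :
    ∀ a ∈ TR g.toFun, ∀ b ∈ TR g.toFun, ∀ c ∈ TR g.toFun, a = b ∨ a = c ∨ b = c := by
  have hd1 : 1 ≤ d := by omega
  have hF0 : ∀ w, w ≠ 0 → g.F w ≠ 0 := fun w hw => F_ne hd1 g w hw
  intro p0 h0 p1 h1 p2 h2
  by_contra hne
  push Not at hne
  obtain ⟨hn01, hn02, hn12⟩ := hne
  -- data of a totally ramified value
  have hdata : ∀ p ∈ TR g.toFun, ∃ y x : ℂ × ℂ, y ≠ 0 ∧ x ≠ 0 ∧ pt y = p ∧
      g.toFun (pt x) = p ∧ ∃ a : ℂ, a ≠ 0 ∧ ∀ w, wd (g.F w) y = a * wd w x ^ d := by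
    rintro p ⟨q, hq⟩
    obtain ⟨y, hy, hyp⟩ := pt_surj p
    obtain ⟨x, hx, hxq⟩ := pt_surj q
    obtain ⟨r, hr⟩ := toFun_surj hd1 hB g p
    have hr2 : r = q := hq r hr
    refine ⟨y, x, hy, hx, hyp, by rw [hxq, ← hr2, hr], ?_⟩
    refine F_pow hd1 hB g y x hy hx fun w hw h => ?_
    rw [← pt_eq hw hx, hxq]
    apply hq
    rw [toFun_pt hd1 g w hw, ← hyp, pt_eq (hF0 w hw) hy]
    exact h
  obtain ⟨y0, x0, hy0, hx0, hp0, hq0, a0, ha0, f0⟩ := hdata p0 h0
  obtain ⟨y1, x1, hy1, hx1, hp1, hq1, a1, ha1, f1⟩ := hdata p1 h1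
  obtain ⟨y2, x2, hy2, hx2, hp2, hq2, a2, ha2, f2⟩ := hdata p2 h2
  have n01 : wd y0 y1 ≠ 0 := by
    rw [← hp0, ← hp1] at hn01
    exact fun h => hn01 ((pt_eq hy0 hy1).2 h)
  have m02 : wd x0 x2 ≠ 0 := by
    intro h
    apply hn02
    rw [← hq0, ← hq2, (pt_eq hx0 hx2).2 h]
  have m12 : wd x1 x2 ≠ 0 := by
    intro h
    apply hn12
    rw [← hq1, ← hq2, (pt_eq hx1 hx2).2 h]
  have key : ∀ u : ℂ × ℂ, wd y0 y1 * wd u y2 = wd y2 y1 * wd u y0 + wd y0 y2 * wd u y1 := by
    intro u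
    unfold wd
    ring
  refine no_pow hd (wd y2 y1 * a0 * (wd x1 x0) ^ d) (wd y0 y2 * a1 * (wd x0 x1) ^ d)
    (wd y0 y1 * a2) (wd x0 x2) (wd x1 x2) (mul_ne_zero n01 ha2) m02 m12 fun t => ?_
  have e := key (g.F (x0.1 + t * x1.1, x0.2 + t * x1.2))
  rw [f0, f1, f2] at e
  have e1 : wd (x0.1 + t * x1.1, x0.2 + t * x1.2) x0 = t * wd x1 x0 := by
    unfold wd
    ring
  have e2 : wd (x0.1 + t * x1.1, x0.2 + t * x1.2) x1 = wd x0 x1 := by
    unfold wd
    ring
  have e3 : wd (x0.1 + t * x1.1, x0.2 + t * x1.2) x2 = wd x0 x2 + wd x1 x2 * t := by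
    unfold wd
    ring
  rw [e1, e2, e3, mul_pow] at e
  linear_combination -e

theorem iter_pt {d : ℕ} (hd : 1 ≤ d) (g : RatMap d) (n : ℕ) (w : ℂ × ℂ) (hw : w ≠ 0) :
    g.F^[n] w ≠ 0 ∧ g.toFun^[n] (pt w) = pt (g.F^[n] w) := by
  induction n with
  | zero => exact ⟨hw, rfl⟩
  | succ n ih =>
    rw [Function.iterate_succ_apply', Function.iterate_succ_apply', ih.2]
    exact ⟨F_ne hd g _ ih.1, toFun_pt hd g _ ih.1⟩

/-- the sixth iterate as a rational map -/
theorem exists_six {d : ℕ} (hd : 1 ≤ d) (h1 : T_IT) (g : RatMap d) :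
    ∃ g6 : RatMap (d ^ 6), g6.F = g.F^[6] := by
  obtain ⟨a1, a2, a3, a4, a5⟩ := h1 d hd g 6
  refine ⟨⟨(g.it 6).1, (g.it 6).2, a1, a2, a3, a4⟩, ?_⟩
  funext w
  rw [a5 w]
  rfl

theorem pf_EXC (h1 : T_IT) (h2 : T_BF) : T_EXC := by
  intro d hd g
  have hd1 : 1 ≤ d := by omega
  obtain ⟨g6, hg6⟩ := exists_six hd1 h1 g
  have hd6 : 1 ≤ d ^ 6 := Nat.one_le_pow _ _ (by omega)
  have hs := toFun_surj hd1 h2 g
  have h3 := three hd h2 g
  have hfin : {e : OnePoint ℂ | ∀ y, g.toFun^[6] y = e → y = e}.Finite :=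
    (finite_of_three _ h3).subset fun e he => dyn_a hs he
  refine ⟨hfin.toFinset, fun e he => ?_, fun e he => ?_, ?_⟩
  · have he' : ∀ y, g.toFun^[6] y = e → y = e := by simpa using he
    exact dyn_b hs he'
  · have he' : ∀ y, g.toFun^[6] y = e → y = e := by simpa using he
    obtain ⟨c, hc, h⟩ := F_pow hd6 h2 g6 (vec e) (vec e) (vec_ne e) (vec_ne e)
      (fun w hw h => by
        rw [hg6] at h
        rw [← pt_eq hw (vec_ne e), pt_vec]
        apply he'
        rw [(iter_pt hd1 g 6 w hw).2]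
        rw [← pt_eq (iter_pt hd1 g 6 w hw).1 (vec_ne e), pt_vec] at h
        exact h)
    rw [hg6] at h
    exact ⟨c, hc, h⟩
  · intro z x hz hx hom c hc
    -- `c` is not zero
    have hc0 : c ≠ 0 := by
      intro h0
      obtain ⟨y, hy, hyz⟩ : ∃ y : ℂ × ℂ, y ≠ 0 ∧ wd y z ≠ 0 := by
        by_cases hz2 : z.2 = 0
        · have hz1 : z.1 ≠ 0 := fun h => hz (Prod.ext h hz2)
          refine ⟨(0, 1), fun h => one_ne_zero (congrArg Prod.snd h), ?_⟩
          unfold wd
          simpa using hz1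
        · refine ⟨(1, 0), fun h => one_ne_zero (congrArg Prod.fst h), ?_⟩
          unfold wd
          simpa using hz2
      obtain ⟨w, hw, h⟩ := F_surj hd6 h2 g6 y hy
      have e5 := hc w
      rw [h0, zero_mul, ← hg6] at e5
      exact hyz (wd_trans (F_ne hd6 g6 w hw) (wd_symm h) e5)
    have hfib : ∀ p, g.toFun^[6] p = pt z → p = pt x := by
      intro p hp
      obtain ⟨w, hw, rfl⟩ := pt_surj p
      rw [(iter_pt hd1 g 6 w hw).2, pt_eq (iter_pt hd1 g 6 w hw).1 hz, hc w] at hp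
      have e2 : wd w x ^ d ^ 6 = 0 := (mul_eq_zero.1 hp).resolve_left hc0
      exact (pt_eq hw hx).2 (pow_eq_zero_iff (by positivity) |>.1 e2)
    have hmem := dyn_c hs h3 hfib
    apply hom
    unfold omh
    refine Finset.prod_eq_zero (i := pt z) (by simpa using hmem) ?_
    have h4 : wd z (vec (pt z)) = 0 := by
      rw [← pt_eq hz (vec_ne _), pt_vec]
    unfold cd
    rw [h4]
    simp

end Pool.Agent.H67.UDB
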